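import Mathlib

namespace Pool.Agent.Results.MP_54f1ce_nt.HalfSum

open Finset

/-- Length of the simple continued fraction of `a / b` given by the Euclidean algorithm
(for `0 < b < a` its last partial quotient exceeds `1`). -/
def cfLen (a b : ℕ) : ℕ :=
  if h : b = 0 then 0 else cfLen b (a % b) + 1
termination_by b
decreasing_by exact Nat.mod_lt _ (Nat.pos_of_ne_zero h)

/-- `N(p)`. -/
def cN (p : ℕ) : ℕ :=
  ((Ioo 0 p).filter (fun n : ℕ => jacobiSym (n : ℤ) p = (-1) ^ cfLen p n)).card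

/-- `N̄(p)`. -/
def cNbar (p : ℕ) : ℕ :=
  ((Ioo 0 p).filter (fun n : ℕ => jacobiSym (n : ℤ) p = (-1) ^ (cfLen p n + 1))).card

theorem key : ∀ b a : ℕ, 0 < b → b < a → Nat.Coprime a b →
    ∃ u v : ℕ, 2 * u ≤ a ∧ 2 * v ≤ b ∧ (b : ℤ) * u - a * v = (-1) ^ (cfLen a b + 1) := by
  intro b
  induction b using Nat.strong_induction_on with
  | _ b ih =>
    intro a hb hba hc
    rw [cfLen, dif_neg hb.ne']
    by_cases hr : a % b = 0
    · have hb1 : b = 1 := by
        have : b ∣ a := Nat.dvd_of_mod_eq_zero hr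
        exact Nat.eq_one_of_dvd_coprimes hc this dvd_rfl
      subst hb1
      refine ⟨1, 0, by omega, by omega, ?_⟩
      rw [hr, cfLen]; simp
    · have hlt := Nat.mod_lt a hb
      have hc' : Nat.Coprime b (a % b) := by
        have := Nat.gcd_rec b a
        unfold Nat.Coprime at *
        rw [Nat.gcd_comm, ← this, Nat.gcd_comm]; exact hc
      obtain ⟨u, v, h1, h2, h3⟩ := ih (a % b) hlt b (Nat.pos_of_ne_zero hr) hlt hc'
      have hd := Nat.div_add_mod a b
      refine ⟨a / b * u + v, u, ?_, h1, ?_⟩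
      · have : a / b * (2 * u) ≤ a / b * b := Nat.mul_le_mul_left _ h1
        nlinarith
      · have hd' : (b : ℤ) * ((a / b : ℕ) : ℤ) + ((a % b : ℕ) : ℤ) = a := by exact_mod_cast hd
        rw [pow_succ (-1 : ℤ) (cfLen b (a % b) + 1), ← h3, Nat.cast_add, Nat.cast_mul]
        linear_combination (u : ℤ) * hd'

theorem uniq (p n u w : ℕ) (e f : ℤ) (hc : Nat.Coprime p n) (hu : 0 < u) (hw : 0 < w)
    (hu2 : 2 * u < p) (hw2 : 2 * w < p) (he : e = 1 ∨ e = -1) (hf : f = 1 ∨ f = -1)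
    (h1 : (p : ℤ) ∣ n * u - e) (h2 : (p : ℤ) ∣ n * w - f) : u = w ∧ e = f := by
  have hc' : IsCoprime (p : ℤ) (n : ℤ) := Nat.isCoprime_iff_coprime.mpr hc
  by_cases hef : e = f
  · refine ⟨?_, hef⟩
    subst hef
    have h3 : (p : ℤ) ∣ n * ((u : ℤ) - w) := by
      have := dvd_sub h1 h2
      have e1 : (n : ℤ) * u - e - (n * w - e) = n * ((u : ℤ) - w) := by ring
      rwa [e1] at this
    have h4 := hc'.dvd_of_dvd_mul_left h3
    have := Int.eq_zero_of_abs_lt_dvd h4 (by rw [abs_lt]; constructor <;> omega)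
    omega
  · exfalso
    have hs : e + f = 0 := by omega
    have h3 : (p : ℤ) ∣ n * ((u : ℤ) + w) := by
      have := dvd_add h1 h2
      have e1 : (n : ℤ) * u - e + (n * w - f) = n * ((u : ℤ) + w) := by linear_combination -hs
      rwa [e1] at this
    have h4 := hc'.dvd_of_dvd_mul_left h3
    have := Int.eq_zero_of_abs_lt_dvd h4 (by rw [abs_lt]; constructor <;> omega)
    omega

theorem jneg (p : ℕ) (h4 : p % 4 = 3) : jacobiSym (-1) p = -1 := by
  rw [jacobiSym.at_neg_one (Nat.odd_iff.mpr (by omega)), ZMod.χ₄_nat_three_mod_four h4]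

theorem jmul (p n u : ℕ) (h4 : p % 4 = 3) (e : ℤ) (he : e = 1 ∨ e = -1)
    (h : (p : ℤ) ∣ n * u - e) : jacobiSym n p * jacobiSym u p = e := by
  rw [← jacobiSym.mul_left]
  have : ((n : ℤ) * u) % p = e % p := (Int.emod_emod_of_dvd _ dvd_rfl).symm.trans
    ((Int.emod_emod_of_dvd _ dvd_rfl).trans ((Int.modEq_iff_dvd.mpr h).symm))
  rw [jacobiSym.mod_left' this]
  rcases he with rfl | rfl
  · simp
  · exact jneg p h4

theorem cop (p n : ℕ) (hp : 3 < p) (h : jacobiSym n p ≠ 0) : Nat.Coprime p n := by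
  have : NeZero p := ⟨by omega⟩
  by_contra hc
  apply h
  rw [jacobiSym.eq_zero_iff_not_coprime]
  intro h'
  apply hc
  rw [Int.gcd_natCast_natCast] at h'
  exact Nat.Coprime.symm h'

theorem count (p : ℕ) (hp : 3 < p) (h4 : p % 4 = 3) (s : ℤ) (hs : s = 1 ∨ s = -1) :
    ((Ioo 0 p).filter (fun n : ℕ => jacobiSym (n : ℤ) p = s * (-1) ^ (cfLen p n + 1))).card =
    2 * ((Ioo 0 p).filter (fun u : ℕ => 2 * u < p ∧ jacobiSym (u : ℤ) p = s)).card := by
  have hk := fun b => key b p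
  choose! U V hU hV hE using hk
  have hpm : ∀ k : ℕ, ((-1 : ℤ) ^ k = 1 ∨ (-1 : ℤ) ^ k = -1) := fun k => neg_one_pow_eq_or ℤ k
  have hfacts : ∀ n : ℕ, 0 < n → n < p → Nat.Coprime p n →
      0 < U n ∧ 2 * U n < p ∧ (p : ℤ) ∣ n * U n - (-1) ^ (cfLen p n + 1) := by
    intro n h0 h1 hc
    have hd : (p : ℤ) ∣ n * U n - (-1) ^ (cfLen p n + 1) :=
      ⟨V n, by linear_combination hE n h0 h1 hc⟩
    have := hU n h0 h1 hc
    refine ⟨?_, by omega, hd⟩
    rcases Nat.eq_zero_or_pos (U n) with h | h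
    · exfalso
      rw [h] at hd
      have := Int.eq_zero_of_abs_lt_dvd hd (by
        rw [abs_lt]; rcases hpm (cfLen p n + 1) with h' | h' <;> rw [h'] <;> constructor <;> omega)
      rcases hpm (cfLen p n + 1) with h' | h' <;> rw [h'] at this <;> omega
    · exact h
  have h2 : ∀ S : Finset ℕ, 2 * S.card = (S ×ˢ ({1, -1} : Finset ℤ)).card := by
    intro S; rw [card_product, mul_comm]; rfl
  rw [h2]
  apply card_bij (fun n _ => (U n, (-1 : ℤ) ^ (cfLen p n + 1)))
  · intro n hn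
    simp only [mem_filter, mem_Ioo] at hn
    obtain ⟨⟨h0, h1⟩, hj⟩ := hn
    have hc : Nat.Coprime p n := cop p n hp (by
      rw [hj]; rcases hpm (cfLen p n + 1) with h' | h' <;> rw [h'] <;> omega)
    obtain ⟨a1, a2, a3⟩ := hfacts n h0 h1 hc
    have hm := jmul p n (U n) h4 _ (hpm _) a3
    simp only [mem_product, mem_filter, mem_Ioo, mem_insert, mem_singleton]
    refine ⟨⟨⟨a1, by omega⟩, by omega, ?_⟩, hpm _⟩
    rw [hj] at hm
    rcases hpm (cfLen p n + 1) with h' | h' <;> rw [h'] at hm <;> rcases hs with rfl | rfl <;> omega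
  · intro n hn m hm h
    simp only [mem_filter, mem_Ioo] at hn hm
    obtain ⟨⟨h0, h1⟩, hj⟩ := hn
    obtain ⟨⟨g0, g1⟩, gj⟩ := hm
    have hc : Nat.Coprime p n := cop p n hp (by
      rw [hj]; rcases hpm (cfLen p n + 1) with h' | h' <;> rw [h'] <;> omega)
    have gc : Nat.Coprime p m := cop p m hp (by
      rw [gj]; rcases hpm (cfLen p m + 1) with h' | h' <;> rw [h'] <;> omega)
    obtain ⟨a1, a2, a3⟩ := hfacts n h0 h1 hc
    obtain ⟨b1, b2, b3⟩ := hfacts m g0 g1 gc
    simp only [Prod.mk.injEq] at h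
    rw [← h.1, ← h.2] at b3
    have hm := jmul p n (U n) h4 _ (hpm _) a3
    have uc : Nat.Coprime p (U n) := cop p (U n) hp (by
      intro h0; rw [h0] at hm
      rcases hpm (cfLen p n + 1) with h' | h' <;> rw [h'] at hm <;> omega)
    have hc' : IsCoprime (p : ℤ) (U n : ℤ) := Nat.isCoprime_iff_coprime.mpr uc
    have h3 : (p : ℤ) ∣ U n * ((n : ℤ) - m) := by
      have := dvd_sub a3 b3
      have e1 : (n : ℤ) * U n - (-1) ^ (cfLen p n + 1) - (m * U n - (-1) ^ (cfLen p n + 1))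
        = U n * ((n : ℤ) - m) := by ring
      rwa [e1] at this
    have h5 := hc'.dvd_of_dvd_mul_left h3
    have := Int.eq_zero_of_abs_lt_dvd h5 (by rw [abs_lt]; constructor <;> omega)
    omega
  · rintro ⟨u, e⟩ hb
    simp only [mem_product, mem_filter, mem_Ioo, mem_insert, mem_singleton] at hb
    obtain ⟨⟨⟨u0, u1⟩, u2, uj⟩, he⟩ := hb
    have uc : Nat.Coprime p u := cop p u hp (by rw [uj]; omega)
    have hc' : IsCoprime (p : ℤ) (u : ℤ) := Nat.isCoprime_iff_coprime.mpr uc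
    obtain ⟨x, y, hxy⟩ := hc'
    have hp0 : (0 : ℤ) < p := by omega
    obtain ⟨n, hn⟩ := Int.eq_ofNat_of_zero_le (Int.emod_nonneg (e * y) hp0.ne')
    have hn1 := Int.emod_lt_of_pos (e * y) hp0
    have hdm := Int.emod_add_mul_ediv (e * y) p
    have hd : (p : ℤ) ∣ n * u - e :=
      ⟨-(e * y / p) * u - e * x, by rw [← hn]; linear_combination (u : ℤ) * hdm + e * hxy⟩
    have hm := jmul p n u h4 e he hd
    have hc : Nat.Coprime p n := cop p n hp (by intro h0; rw [h0] at hm; omega)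
    have h0 : 0 < n := by
      rcases Nat.eq_zero_or_pos n with h | h
      · subst h; simp at hc; omega
      · exact h
    have h1 : n < p := by omega
    obtain ⟨a1, a2, a3⟩ := hfacts n h0 h1 hc
    obtain ⟨c1, c2⟩ := uniq p n (U n) u _ e hc a1 u0 a2 (by omega) (hpm _) he a3 hd
    refine ⟨n, ?_, by simp only [c1, c2]⟩
    simp only [mem_filter, mem_Ioo]
    refine ⟨⟨h0, h1⟩, ?_⟩
    rw [c2]; rw [uj] at hm
    rcases hs with rfl | rfl <;> omega

theorem result (p : ℕ) (hp : 3 < p) (h4 : p % 4 = 3) :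
    2 ≤ cN p ∧
    cN p = 2 * ((Ioo 0 p).filter (fun u : ℕ => 2 * u < p ∧ jacobiSym (u : ℤ) p = -1)).card ∧
    cNbar p = 2 * ((Ioo 0 p).filter (fun u : ℕ => 2 * u < p ∧ jacobiSym (u : ℤ) p = 1)).card := by
  have hN : cN p =
      2 * ((Ioo 0 p).filter (fun u : ℕ => 2 * u < p ∧ jacobiSym (u : ℤ) p = -1)).card := by
    rw [← count p hp h4 (-1) (Or.inr rfl), cN]
    congr 1
    apply filter_congr
    intro n _
    rw [pow_succ]; ring_nf
  have hB : cNbar p =
      2 * ((Ioo 0 p).filter (fun u : ℕ => 2 * u < p ∧ jacobiSym (u : ℤ) p = 1)).card := by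
    rw [← count p hp h4 1 (Or.inl rfl), cNbar]
    simp only [one_mul]
  refine ⟨?_, hN, hB⟩
  rw [hN]
  have hm := jmul p 2 (p / 2) h4 (-1) (Or.inr rfl) ⟨1, by omega⟩
  have : 0 < ((Ioo 0 p).filter (fun u : ℕ => 2 * u < p ∧ jacobiSym (u : ℤ) p = -1)).card := by
    rw [card_pos]
    rcases jacobiSym.trichotomy ((2 : ℕ) : ℤ) p with h | h | h
    · rw [h] at hm; omega
    · refine ⟨p / 2, ?_⟩
      simp only [mem_filter, mem_Ioo]
      rw [h] at hm
      refine ⟨⟨by omega, by omega⟩, by omega, by omega⟩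
    · refine ⟨2, ?_⟩
      simp only [mem_filter, mem_Ioo]
      exact ⟨⟨by omega, by omega⟩, by omega, h⟩
  omega

end Pool.Agent.Results.MP_54f1ce_nt.HalfSum
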